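import Pool.Agent.NPC.Defs

/-!
# Deterministic algorithms with many rounds
-/

set_option autoImplicit false

namespace Pool.Agent.J4H65.PT

open Finset Pool.Agent

/-- `M` is computable in polynomial time: some function on bit strings computed by a Turing machine
(Mathlib's `TM2ComputableInPolyTime`) in polynomially many steps sends the code of the list `c` to
the code of `M c`. -/
def PolyTimeRound (M : List ℕ → Bool × List ℕ) : Prop :=
  ∃ f : List Bool → List Bool, NPC.PolyTime f ∧ ∀ c : List ℕ, f (NPC.bits c) = NPC.bits (M c)

/-- The algorithm with the rounds `M`, started with the memory `x`, halts after at most `T` rounds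
with the output `s`, and the code of the memory never has more than `m` bits. -/
def Outputs (M : List ℕ → Bool × List ℕ) (T m : ℕ) (x s : List ℕ) : Prop :=
  ∃ (t : ℕ) (c : ℕ → List ℕ), t ≤ T ∧ c 0 = x ∧ (∀ i < t, M (c i) = (false, c (i + 1))) ∧
    M (c t) = (true, s) ∧ ∀ i ≤ t, (NPC.bits (c i)).length ≤ m

/-- `g` is a primitive root modulo `p` -/
def IsPrimRoot (p g : ℕ) : Prop := orderOf (g : ZMod p) = p - 1

open Classical in
/-- The algorithm `M` finds primitive roots modulo `p` in at most `T` rounds: started with the
memory `[p]`, it outputs a list of `(size p) ^ C` numbers, all but a fraction `(size p) ^ (-B)` of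
which are primitive roots modulo `p`, after at most `T` rounds with a memory of at most
`(size p) ^ A` bits. -/
def Finds (M : List ℕ → Bool × List ℕ) (A B C T p : ℕ) : Prop :=
  ∃ s : List ℕ, s.length = p.size ^ C ∧
    p.size ^ B * #{i ∈ range s.length | ¬ IsPrimRoot p (s.getD i 0)} ≤ s.length ∧
    Outputs M T (p.size ^ A) [p] s

end Pool.Agent.J4H65.PT
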