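import Pool.Agent.J4H65.PT.Num
import Pool.Agent.J4H65.PT.Defs

/-!
# The algorithm
-/

set_option autoImplicit false

namespace Pool.Agent.J4H65.PT

open Finset Pool.Agent.NPC Pool.Agent.H595R2.PR
open Pool.Agent.R562.PR (HasNonresidue candsS withSmall length_candsS length_withSmall
  top_of_nonresidues genS_iff prim_of_generates fits coreS two_le_size)

/-- the candidates: `-1, 2, 3, …` -/
def cd (p j : ℕ) : ℕ := if j ≤ 1 then p - 1 else j

/-- one round -/
def stp (k C A : ℕ) (c : List ℕ) : Bool × List ℕ :=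
  if c.length ≤ 1 then (false, [c.getD 0 0, c.getD 0 0 - 1, 2, 1]) else
  if c.getD 0 0 ≤ (c.getD 2 0) ^ k then
    (true, candsS C (c.getD 0 0) (withSmall ((c.getD 0 0).size ^ A) c.tail.tail.tail.tail)) else
  if c.getD 1 0 % c.getD 2 0 = 0 then
    (if pw (c.getD 0 0) (cd (c.getD 0 0) (c.getD 3 0)) ((c.getD 0 0 - 1) / c.getD 2 0) =
        md (c.getD 0 0) 1 then
      (false, c.getD 0 0 :: c.getD 1 0 :: c.getD 2 0 :: (c.getD 3 0 + 1) :: c.tail.tail.tail.tail)
    else (false, c.getD 0 0 :: (c.getD 1 0 / c.getD 2 0) :: c.getD 2 0 :: 1 ::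
      cd (c.getD 0 0) (c.getD 3 0) :: c.tail.tail.tail.tail))
  else (false, c.getD 0 0 :: c.getD 1 0 :: (c.getD 2 0 + 1) :: 1 :: c.tail.tail.tail.tail)

/-- the memory -/
def st (p m l j : ℕ) (S : List ℕ) : List ℕ := p :: m :: l :: j :: S

section steps

variable {k C A p m l j : ℕ} {S : List ℕ}

theorem stp_init : stp k C A [p] = (false, st p (p - 1) 2 1 []) := by
  simp [stp, st]

theorem stp_out (h : p ≤ l ^ k) : stp k C A (st p m l j S) =
    (true, candsS C p (withSmall (p.size ^ A) S)) := by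
  simp [stp, st, h]

theorem stp_adv (h : l ^ k < p) (hm : m % l ≠ 0) : stp k C A (st p m l j S) =
    (false, st p m (l + 1) 1 S) := by
  simp [stp, st, h, hm]

theorem stp_next (h : l ^ k < p) (hm : m % l = 0)
    (ht : pw p (cd p j) ((p - 1) / l) = md p 1) : stp k C A (st p m l j S) =
    (false, st p m l (j + 1) S) := by
  simp [stp, st, h, hm, ht]

theorem stp_found (h : l ^ k < p) (hm : m % l = 0)
    (ht : pw p (cd p j) ((p - 1) / l) ≠ md p 1) : stp k C A (st p m l j S) =
    (false, st p (m / l) l 1 (cd p j :: S)) := by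
  simp [stp, st, h, hm, ht]

end steps

/-- `n` rounds -/
def Steps (M : List ℕ → Bool × List ℕ) (b : ℕ) : ℕ → List ℕ → List ℕ → Prop
  | 0, c, d => c = d
  | n + 1, c, d => (bits c).length ≤ b ∧ ∃ e, M c = (false, e) ∧ Steps M b n e d

theorem Steps.trans {M : List ℕ → Bool × List ℕ} {b : ℕ} : ∀ {n n' : ℕ} {c d e : List ℕ},
    Steps M b n c d → Steps M b n' d e → Steps M b (n + n') c e
  | 0, n', c, d, e, h, h' => by
    have h1 : c = d := h
    rw [h1, Nat.zero_add]
    exact h'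
  | n + 1, n', c, d, e, h, h' => by
    obtain ⟨h1, f, hf, h2⟩ := h
    have h3 := h2.trans h'
    rw [show n + 1 + n' = (n + n') + 1 by omega]
    exact ⟨h1, f, hf, h3⟩

theorem Steps.outputs {M : List ℕ → Bool × List ℕ} {b : ℕ} {d s : List ℕ}
    (hd : M d = (true, s)) (hb : (bits d).length ≤ b) : ∀ {n : ℕ} {c : List ℕ},
    Steps M b n c d → ∃ f : ℕ → List ℕ, f 0 = c ∧ (∀ i < n, M (f i) = (false, f (i + 1))) ∧
      M (f n) = (true, s) ∧ ∀ i ≤ n, (bits (f i)).length ≤ b
  | 0, c, h => by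
    have h1 : c = d := h
    subst h1
    exact ⟨fun _ => c, rfl, fun i hi => absurd hi (by omega), hd, fun i _ => hb⟩
  | n + 1, c, h => by
    obtain ⟨h1, e, he, h2⟩ := h
    obtain ⟨f, hf0, hf1, hf2, hf3⟩ := Steps.outputs hd hb h2
    refine ⟨fun i => Nat.casesOn i c f, rfl, fun i hi => ?_, hf2, fun i hi => ?_⟩
    · cases i with
      | zero => simpa [hf0] using he
      | succ i => exact hf1 i (by omega)
    · cases i with
      | zero => exact h1
      | succ i => exact hf3 i (by omega)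

/-- the test -/
theorem test_iff {p b e : ℕ} (hp : p.Prime) : pw p b e = md p 1 ↔ (b : ZMod p) ^ e = 1 := by
  rw [pw_eq]
  unfold md
  have hm : max p 1 = p := max_eq_left hp.one_lt.le
  have h1 : ((b : ZMod p) ^ e = 1) ↔ (((b ^ e : ℕ) : ZMod p) = ((1 : ℕ) : ZMod p)) := by
    push_cast
    rfl
  rw [hm, h1, ZMod.natCast_eq_natCast_iff']

theorem size_st {p m l j : ℕ} {S : List ℕ} (hD : 5 ≤ p.size) (hm : m ≤ p) (hl : l ≤ p)
    (hj : j ≤ p) (hS : ∀ x ∈ S, x ≤ p) (hlen : S.length ≤ p.size) :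
    (bits (st p m l j S)).length ≤ p.size ^ 4 := by
  rw [bits_length]
  have key : ∀ x, x ≤ p → sz x ≤ 8 * p.size + 2 := by
    intro x hx
    have h1 := sz_nat_mono_le hx
    have h2 := sz_nat_le p
    omega
  have h1 := sz_le_length_mul (st p m l j S) (8 * p.size + 2) (by
    intro a ha
    simp only [st, List.mem_cons] at ha
    rcases ha with rfl | rfl | rfl | rfl | ha
    · exact key _ le_rfl
    · exact key _ hm
    · exact key _ hl
    · exact key _ hj
    · exact key _ (hS _ ha))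
  have h2 : (st p m l j S).length = S.length + 4 := by simp [st]
  rw [h2] at h1
  refine h1.trans ?_
  set D := p.size
  have h3 : (S.length + 4) * (8 * D + 2 + 1) ≤ (D + 4) * (8 * D + 3) := by gcongr
  have h4 : (D + 4) * (8 * D + 3) + 1 ≤ D ^ 4 := by
    have h5 : 25 * (D * D) ≤ D ^ 4 := by
      have h6 : D ^ 4 = (D * D) * (D * D) := by ring
      rw [h6]
      have h7 : 25 ≤ D * D := by nlinarith
      exact Nat.mul_le_mul_right _ h7
    nlinarith
  omega

/-- the invariants -/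
structure Inv (p m l : ℕ) (S : List ℕ) : Prop where
  two : 2 ≤ l
  lp : l ≤ p
  pos : 0 < m
  dvd : m ∣ p - 1
  low : ∀ q : ℕ, q.Prime → q ∣ m → l ≤ q
  len : 2 ^ S.length * m ≤ p - 1
  le : ∀ x ∈ S, x ≤ p
  has : ∀ q : ℕ, q.Prime → q ∣ p - 1 → q ∣ m ∨ HasNonresidue p q S

theorem Inv.length_lt {p m l : ℕ} {S : List ℕ} (hp : p.Prime) (h : Inv p m l S) :
    S.length < p.size := by
  have h1 : 2 ^ S.length ≤ p - 1 :=
    (Nat.le_mul_of_pos_right _ h.pos).trans h.len
  have h2 : 2 ^ S.length ≤ p := by omega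
  exact Nat.lt_size.2 h2

theorem Inv.prime {p m l : ℕ} {S : List ℕ} (h : Inv p m l S) (hd : l ∣ m) : l.Prime := by
  have h1 : l ≠ 1 := by have := h.two; omega
  have h2 := Nat.minFac_prime h1
  have h3 := h.low _ h2 ((Nat.minFac_dvd l).trans hd)
  have h4 : l.minFac ≤ l := Nat.minFac_le (by have := h.two; omega)
  have h5 : l.minFac = l := by omega
  rw [← h5]
  exact h2

/-- the search -/
theorem search {k C A p m l b : ℕ} {S : List ℕ} (h : l ^ k < p) (hm : m % l = 0) {j0 : ℕ}
    (hj0 : 1 ≤ j0) (h1 : ∀ j, 1 ≤ j → j < j0 → pw p (cd p j) ((p - 1) / l) = md p 1)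
    (h2 : pw p (cd p j0) ((p - 1) / l) ≠ md p 1)
    (hb : ∀ j ≤ j0, (bits (st p m l j S)).length ≤ b) :
    Steps (stp k C A) b j0 (st p m l 1 S) (st p (m / l) l 1 (cd p j0 :: S)) := by
  have key : ∀ i, i + 1 ≤ j0 → Steps (stp k C A) b i (st p m l 1 S) (st p m l (1 + i) S) := by
    intro i
    induction i with
    | zero => intro _; rfl
    | succ i ih =>
      intro hi
      refine (ih (by omega)).trans (n' := 1) ⟨hb _ (by omega), _, stp_next h hm (h1 _ (by omega)
        (by omega)), ?_⟩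
      show st p m l (1 + i + 1) S = st p m l (1 + (i + 1)) S
      rw [Nat.add_assoc]
  obtain ⟨i, rfl⟩ : ∃ i, j0 = i + 1 := ⟨j0 - 1, by omega⟩
  refine (key i le_rfl).trans (n' := 1) ⟨hb _ (by omega), _, stp_found h hm ?_, ?_⟩
  · rw [Nat.add_comm 1 i]; exact h2
  · show _ = _
    rw [Nat.add_comm 1 i]

theorem run {k C A p N lf : ℕ} (hk : 1 ≤ k) (hp : p.Prime) (hD : 5 ≤ p.size) (hN1 : 1 ≤ N)
    (hN : N < p) (hnon : ∀ l : ℕ, l.Prime → l ∣ p - 1 → l ^ k < p → ∃ j : ℕ, 1 ≤ j ∧ j ≤ N ∧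
      (cd p j : ZMod p) ^ ((p - 1) / l) ≠ 1) (hlf : p ≤ lf ^ k) :
    ∀ (w m l : ℕ) (S : List ℕ), Inv p m l S → (lf - l) + N * (p.size - S.length) ≤ w →
      ∃ t ≤ w, ∃ m' l' S', Inv p m' l' S' ∧ p ≤ l' ^ k ∧
        (bits (st p m' l' 1 S')).length ≤ p.size ^ 4 ∧
        Steps (stp k C A) (p.size ^ 4) t (st p m l 1 S) (st p m' l' 1 S') := by
  intro w
  induction w using Nat.strong_induction_on with
  | _ w ih =>
  intro m l S hI hw
  have hp1 : 1 < p := hp.one_lt
  have hmp : m ≤ p := by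
    have h1 : m ≤ 2 ^ S.length * m := Nat.le_mul_of_pos_left _ (by positivity)
    have := hI.len
    omega
  have hlen := hI.length_lt hp
  have hbits : ∀ j, j ≤ p → (bits (st p m l j S)).length ≤ p.size ^ 4 := fun j hj =>
    size_st hD hmp hI.lp hj hI.le hlen.le
  rcases le_or_gt p (l ^ k) with hpl | hpl
  · exact ⟨0, Nat.zero_le _, m, l, S, hI, hpl, hbits 1 hp1.le, rfl⟩
  have hllf : l < lf := by
    by_contra hcon
    push Not at hcon
    have := Nat.pow_le_pow_left hcon k
    omega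
  have hlp : l < p := by
    have h1 : l ≤ l ^ k := Nat.le_self_pow (by omega) l
    omega
  by_cases hm : m % l = 0
  · have hd : l ∣ m := Nat.dvd_of_mod_eq_zero hm
    have hl : l.Prime := hI.prime hd
    have hex := hnon l hl (hd.trans hI.dvd) hpl
    classical
    set j0 := Nat.find hex with hj0
    obtain ⟨hj1, hj2, hj3⟩ := Nat.find_spec hex
    rw [← hj0] at hj1 hj2 hj3
    have hmin : ∀ j, 1 ≤ j → j < j0 → pw p (cd p j) ((p - 1) / l) = md p 1 := by
      intro j h1 h2
      have h3 := Nat.find_min hex h2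
      rw [test_iff hp]
      by_contra h4
      exact h3 ⟨h1, by omega, h4⟩
    have hsearch := search (k := k) (C := C) (A := A) (b := p.size ^ 4) hpl hm hj1 hmin
      (by rw [Ne, test_iff hp]; exact hj3) (fun j hj => hbits j (by omega))
    have hcdle : cd p j0 ≤ p := by
      unfold cd
      split_ifs <;> omega
    have hcd0 : (cd p j0 : ZMod p) ≠ 0 := by
      rw [Ne, ZMod.natCast_eq_zero_iff]
      intro h1
      have h2 : 0 < cd p j0 ∧ cd p j0 < p := by
        unfold cd
        split_ifs <;> omega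
      have := Nat.le_of_dvd h2.1 h1
      omega
    have hml : l * (m / l) = m := Nat.mul_div_cancel' hd
    have hI' : Inv p (m / l) l (cd p j0 :: S) := by
      refine ⟨hI.two, hI.lp, Nat.div_pos (Nat.le_of_dvd hI.pos hd) hl.pos,
        (Nat.div_dvd_of_dvd hd).trans hI.dvd,
        fun q hq hqm => hI.low q hq (hqm.trans (Nat.div_dvd_of_dvd hd)), ?_, ?_, ?_⟩
      · rw [List.length_cons, pow_succ]
        calc 2 ^ S.length * 2 * (m / l) = 2 ^ S.length * (2 * (m / l)) := by ring
          _ ≤ 2 ^ S.length * (l * (m / l)) := by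
              exact Nat.mul_le_mul_left _ (Nat.mul_le_mul_right _ hI.two)
          _ = 2 ^ S.length * m := by rw [hml]
          _ ≤ p - 1 := hI.len
      · intro x hx
        rcases List.mem_cons.1 hx with rfl | hx
        · exact hcdle
        · exact hI.le x hx
      · intro q hq hqp
        rcases hI.has q hq hqp with h1 | ⟨x, hx, h2⟩
        · by_cases hql : q = l
          · subst hql
            exact Or.inr ⟨_, List.mem_cons_self, hcd0, hj3⟩
          · left
            rw [← hml] at h1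
            rcases (Nat.Prime.dvd_mul hq).1 h1 with h2 | h2
            · exact absurd ((Nat.prime_dvd_prime_iff_eq hq hl).1 h2) hql
            · exact h2
        · exact Or.inr ⟨x, List.mem_cons_of_mem _ hx, h2⟩
    have hmeas : (lf - l) + N * (p.size - (cd p j0 :: S).length) ≤ w - N := by
      rw [List.length_cons]
      obtain ⟨e, he⟩ : ∃ e, p.size = S.length + 1 + e := ⟨p.size - (S.length + 1), by omega⟩
      have h1 : p.size - S.length = e + 1 := by omega
      have h2 : p.size - (S.length + 1) = e := by omega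
      rw [h1, Nat.mul_add, Nat.mul_one] at hw
      rw [h2]
      omega
    have hwN : N ≤ w := by
      have h1 : 1 ≤ p.size - S.length := by omega
      have h2 : N * 1 ≤ N * (p.size - S.length) := Nat.mul_le_mul_left _ h1
      omega
    obtain ⟨t, ht, m', l', S', h1, h2, h3, h4⟩ := ih (w - N) (by omega) _ _ _ hI' hmeas
    exact ⟨j0 + t, by omega, m', l', S', h1, h2, h3, hsearch.trans h4⟩
  · have hI' : Inv p m (l + 1) S := by
      refine ⟨by have := hI.two; omega, hlp, hI.pos, hI.dvd, fun q hq hqm => ?_, hI.len, hI.le,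
        hI.has⟩
      have h1 := hI.low q hq hqm
      rcases Nat.lt_or_ge l q with h2 | h2
      · exact h2
      · exfalso
        have h3 : q = l := by omega
        subst h3
        exact hm (Nat.mod_eq_zero_of_dvd hqm)
    obtain ⟨t, ht, m', l', S', h1, h2, h3, h4⟩ := ih (w - 1) (by omega) _ _ _ hI' (by omega)
    exact ⟨1 + t, by omega, m', l', S', h1, h2, h3, Steps.trans (n := 1)
      ⟨hbits 1 hp1.le, _, stp_adv hpl hm, rfl⟩ h4⟩

open Classical in
/-- the last step -/
theorem final (ε : ℝ) (hε : 0 < ε) (B : ℕ) : ∃ A C p₀ : ℕ, ∀ p : ℕ, p₀ ≤ p → p.Prime →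
    ∀ s : List ℕ, s.length ≤ p.size →
      (∀ l : ℕ, l.Prime → l ∣ p - 1 → (l : ℝ) < (p : ℝ) ^ ε → HasNonresidue p l s) →
      p.size ^ B * #{i ∈ range (candsS C p (withSmall (p.size ^ A) s)).length |
        ¬ IsPrimRoot p ((candsS C p (withSmall (p.size ^ A) s)).getD i 0)} ≤
          (candsS C p (withSmall (p.size ^ A) s)).length := by
  obtain ⟨A₂, hA₂⟩ := Gam_large ε hε
  obtain ⟨p₂, hp₂⟩ := hA₂ A₂ le_rfl
  refine ⟨A₂, 1 + A₂ + B + 2, p₂, fun p hp hpp s hs hnon => ?_⟩
  haveI : Fact p.Prime := ⟨hpp⟩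
  have htop := top_of_nonresidues (Y := p.size ^ A₂) ε (hp₂ p hp hpp) hnon
  have hlen : (candsS (1 + A₂ + B + 2) p (withSmall (p.size ^ A₂) s)).length =
      p.size ^ (1 + A₂ + B + 2) := length_candsS _ _ _
  simp only [hlen]
  have h1 := coreS (1 + A₂ + B + 2) p hpp (withSmall (p.size ^ A₂) s)
  rw [length_withSmall] at h1
  have h2 := fits (n := p.size) (A := 1) (A' := A₂) (B := B)
    (L := s.length + p.size ^ A₂) (two_le_size hpp)
    (Nat.add_le_add_right (by rw [pow_one]; exact hs) _) h1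
  refine le_trans (Nat.mul_le_mul_left _ (card_le_card ?_)) h2
  intro i hi
  rw [mem_filter] at hi ⊢
  refine ⟨hi.1, fun hg => hi.2 ?_⟩
  rw [genS_iff, htop] at hg
  exact prim_of_generates hg

/-- the algorithm -/
theorem alg (k : ℕ) (hk : 1 ≤ k) (B : ℕ) : ∃ A C p₀ : ℕ, ∀ p : ℕ, p₀ ≤ p → p.Prime →
    ∀ N : ℕ, 1 ≤ N → N < p → (∀ l : ℕ, l.Prime → l ∣ p - 1 → l ^ k < p →
      ∃ j : ℕ, 1 ≤ j ∧ j ≤ N ∧ (cd p j : ZMod p) ^ ((p - 1) / l) ≠ 1) →
    ∀ lf : ℕ, p ≤ lf ^ k → ∀ T : ℕ, 1 + (lf + N * p.size) ≤ T →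
      Finds (stp k C A) 4 B C T p := by
  have hk0 : (0 : ℝ) < k := by exact_mod_cast hk
  obtain ⟨A, C, p₀, hfin⟩ := final (1 / k) (by positivity) B
  refine ⟨A, C, max p₀ 32, fun p hp hpp N hN1 hN hnon lf hlf T hT => ?_⟩
  have hp32 : 32 ≤ p := (le_max_right _ _).trans hp
  have hD : 5 ≤ p.size := by
    have : 4 < p.size := Nat.lt_size.2 (by omega)
    omega
  have hI0 : Inv p (p - 1) 2 [] := by
    refine ⟨le_rfl, by omega, by omega, dvd_rfl, fun q hq _ => hq.two_le, by simp, by simp,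
      fun q _ hqp => Or.inl hqp⟩
  have hmeas : (lf - 2) + N * (p.size - ([] : List ℕ).length) ≤ lf + N * p.size := by
    rw [List.length_nil, Nat.sub_zero]
    omega
  obtain ⟨t, ht, m', l', S', h1, h2, h3, h4⟩ := run (k := k) (C := C) (A := A) hk hpp hD hN1 hN
    hnon hlf _ _ _ _ hI0 hmeas
  have h5 : Steps (stp k C A) (p.size ^ 4) (1 + t) [p] (st p m' l' 1 S') := by
    refine Steps.trans (n := 1) ⟨?_, _, stp_init, rfl⟩ h4
    rw [bits_length]
    have h6 := sz_nat_le p
    have h7 : sz [p] = sz p + 2 := by simp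
    rw [h7]
    have h8 : 4 * p.size + 3 ≤ p.size ^ 4 := by
      have h9 : p.size ^ 4 = p.size * (p.size * (p.size * p.size)) := by ring
      rw [h9]
      have h10 : 5 * 5 ≤ p.size * p.size := Nat.mul_le_mul hD hD
      have h11 : 5 * (5 * 5) ≤ p.size * (p.size * p.size) := Nat.mul_le_mul hD h10
      nlinarith
    omega
  obtain ⟨f, hf0, hf1, hf2, hf3⟩ := h5.outputs (stp_out h2) h3
  refine ⟨candsS C p (withSmall (p.size ^ A) S'), length_candsS _ _ _, ?_, 1 + t, f, by omega,
    hf0, hf1, hf2, hf3⟩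
  refine hfin p ((le_max_left _ _).trans hp) hpp S' (h1.length_lt hpp).le fun q hq hqp hql => ?_
  rcases h1.has q hq hqp with h6 | h6
  · exfalso
    have h7 := h1.low q hq h6
    have h8 : p ≤ q ^ k := h2.trans (Nat.pow_le_pow_left h7 k)
    have h9 : (q : ℝ) ^ k < p := by
      calc (q : ℝ) ^ k < ((p : ℝ) ^ (1 / (k : ℝ))) ^ k :=
            pow_lt_pow_left₀ hql (Nat.cast_nonneg _) (by omega)
        _ = p := by
            rw [← Real.rpow_natCast, ← Real.rpow_mul (Nat.cast_nonneg _), one_div,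
              inv_mul_cancel₀ hk0.ne', Real.rpow_one]
    have h10 : q ^ k < p := by exact_mod_cast h9
    omega
  · exact h6

end Pool.Agent.J4H65.PT
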