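import Pool.Agent.Y165.HN.Burg
import Pool.Agent.Y165.HN.Stm
import Pool.Agent.Y369.HN.PER
import Pool.Agent.Y813.HN.Rare
import Pool.Agent.R562.PR.Non
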