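import Pool.Agent.J4H65.PT.Pol

/-!
# The number of rounds
-/

set_option autoImplicit false

namespace Pool.Agent.J4H65.PT

open Finset Filter Pool.Agent.Y165.HN

theorem size_le_rpow (δ : ℝ) (hδ : 0 < δ) : ∃ p₀ : ℕ, ∀ p : ℕ, p₀ ≤ p →
    (p.size : ℝ) ≤ (p : ℝ) ^ δ ∧ 5 ≤ (p : ℝ) ^ δ := by
  have h1 := (isLittleO_log_rpow_atTop hδ).def (c := Real.log 2 / 2)
    (by have := Real.log_pos (by norm_num : (1 : ℝ) < 2); positivity)
  have h2 := tendsto_natCast_atTop_atTop (R := ℝ) |>.eventually h1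
  have h3 : ∀ᶠ p : ℕ in atTop, (5 : ℝ) ≤ (p : ℝ) ^ δ :=
    ((tendsto_rpow_atTop hδ).comp tendsto_natCast_atTop_atTop).eventually_ge_atTop 5
  obtain ⟨p₀, hp⟩ := eventually_atTop.1 (h2.and (h3.and (eventually_ge_atTop 1)))
  refine ⟨p₀, fun p h => ?_⟩
  obtain ⟨h4, h5, h6⟩ := hp p h
  refine ⟨?_, h5⟩
  have hp0 : (0 : ℝ) < p := by exact_mod_cast h6
  have hp1 : (1 : ℝ) ≤ p := by exact_mod_cast h6
  rw [Real.norm_of_nonneg (Real.log_nonneg hp1), Real.norm_of_nonneg (by positivity)] at h4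
  have hs : 0 < p.size := Nat.size_pos.2 h6
  have h7 : 2 ^ (p.size - 1) ≤ p := Nat.lt_size.1 (by omega)
  have h8 : ((p.size - 1 : ℕ) : ℝ) * Real.log 2 ≤ Real.log p := by
    rw [← Real.log_pow]
    refine Real.log_le_log (by positivity) ?_
    exact_mod_cast h7
  have h9 : ((p.size - 1 : ℕ) : ℝ) = p.size - 1 := by
    rw [Nat.cast_sub hs]; simp
  rw [h9] at h8
  have hl2 := Real.log_pos (by norm_num : (1 : ℝ) < 2)
  have h10 : ((p.size : ℝ) - 1) ≤ (p : ℝ) ^ δ / 2 := by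
    by_contra hcon
    push Not at hcon
    nlinarith
  linarith

theorem index {p N g x : ℕ} (hx1 : 1 ≤ x) (hx : x = p - 1 ∨ x ≤ N) (hN : 1 ≤ N)
    (h : (x : ZMod p) ^ g ≠ 1) : ∃ j : ℕ, 1 ≤ j ∧ j ≤ N ∧ (cd p j : ZMod p) ^ g ≠ 1 := by
  rcases hx with rfl | hx
  · exact ⟨1, le_rfl, hN, by simpa [cd] using h⟩
  · refine ⟨x, hx1, hx, ?_⟩
    have h2 : ¬ x ≤ 1 := by
      intro h3
      have h4 : x = 1 := by omega
      subst h4
      simp at h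
    rw [cd, if_neg h2]
    exact h

theorem core (k : ℕ) (hk : 1 ≤ k) (B : ℕ) : ∃ A C p₀ : ℕ, ∀ p : ℕ, p₀ ≤ p → p.Prime →
    ∀ r : ℝ, 1 ≤ r → r < p → (∀ l : ℕ, l.Prime → l ∣ p - 1 → ∃ x : ℕ, 1 ≤ x ∧
      (x = p - 1 ∨ (x : ℝ) ≤ r) ∧ (x : ZMod p) ^ ((p - 1) / l) ≠ 1) →
    ∀ R : ℝ, 2 + (p : ℝ) ^ (1 / (k : ℝ)) + r * p.size ≤ R →
      Finds (stp k C A) 4 B C ⌊R⌋₊ p := by
  obtain ⟨A, C, p₀, h⟩ := alg k hk B
  have hk0 : (0 : ℝ) < k := by exact_mod_cast hk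
  refine ⟨A, C, p₀, fun p hp hpp r hr1 hrp hnon R hR => ?_⟩
  have hN1 : 1 ≤ ⌊r⌋₊ := Nat.le_floor (by simpa using hr1)
  have hNr : (⌊r⌋₊ : ℝ) ≤ r := Nat.floor_le (by linarith)
  have hNp : ⌊r⌋₊ < p := by exact_mod_cast hNr.trans_lt hrp
  refine h p hp hpp ⌊r⌋₊ hN1 hNp (fun l hl hd _ => ?_) ⌈(p : ℝ) ^ (1 / (k : ℝ))⌉₊ ?_ _ ?_
  · obtain ⟨x, hx1, hx2, hx3⟩ := hnon l hl hd
    exact index hx1 (hx2.imp_right fun h1 => Nat.le_floor h1) hN1 hx3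
  · have h1 := Nat.le_ceil ((p : ℝ) ^ (1 / (k : ℝ)))
    have h2 : (p : ℝ) ≤ (⌈(p : ℝ) ^ (1 / (k : ℝ))⌉₊ : ℝ) ^ k := by
      calc (p : ℝ) = ((p : ℝ) ^ (1 / (k : ℝ))) ^ k := by
            rw [← Real.rpow_natCast, ← Real.rpow_mul (Nat.cast_nonneg _), one_div,
              inv_mul_cancel₀ hk0.ne', Real.rpow_one]
        _ ≤ _ := pow_le_pow_left₀ (by positivity) h1 _
    exact_mod_cast h2
  · refine Nat.le_floor ?_
    have h1 := Nat.ceil_lt_add_one (a := (p : ℝ) ^ (1 / (k : ℝ))) (by positivity)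
    have h2 : (⌊r⌋₊ : ℝ) * p.size ≤ r * p.size := by gcongr
    push_cast
    linarith

theorem main (ε : ℝ) (hε : 0 < ε) (hε1 : ε ≤ 1) : ∃ L : ℕ, ∀ B : ℕ,
    ∃ (M : List ℕ → Bool × List ℕ) (C K p₀ : ℕ), PolyTimeRound M ∧
      (∀ p : ℕ, p₀ ≤ p → p.Prime →
        Finds M 4 B C ⌊(p : ℝ) ^ (1 / (4 * Real.exp (1 / 2)) + ε)⌋₊ p) ∧
      (∀ p : ℕ, p₀ ≤ p → p.Prime → (∀ l : ℕ, l.Prime → l ≤ L → l ∣ p - 1 → ∃ x : ℕ, 1 ≤ x ∧
        (x = p - 1 ∨ (x : ℝ) ≤ (p : ℝ) ^ (ε / 2)) ∧ (x : ZMod p) ^ ((p - 1) / l) ≠ 1) →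
        Finds M 4 B C ⌊(p : ℝ) ^ ε⌋₊ p) ∧
      ∀ Q : ℕ, Set.ncard {p : ℕ | p.Prime ∧ Q < p ∧ p ≤ 2 * Q ∧
        ¬ Finds M 4 B C ⌊(p : ℝ) ^ ε⌋₊ p} ≤ K := by
  classical
  set δ : ℝ := ε / 8 with hδ
  have hδ0 : 0 < δ := by positivity
  have hδ1 : δ ≤ 1 / 8 := by rw [hδ]; linarith
  set k : ℕ := ⌈1 / δ⌉₊ with hk
  have hk1 : 1 / δ ≤ k := Nat.le_ceil _
  have hk0 : 1 ≤ k := by
    have h1 : (0 : ℝ) < k := lt_of_lt_of_le (by positivity) hk1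
    exact_mod_cast h1
  have hkr : (0 : ℝ) < k := by exact_mod_cast hk0
  have hkδ : 1 / (k : ℝ) ≤ δ := by
    rw [div_le_iff₀ hδ0] at hk1
    rw [div_le_iff₀ hkr]
    linarith
  obtain ⟨p₂, hsize⟩ := size_le_rpow δ hδ0
  obtain ⟨p₃, hburg⟩ := nonres_burgess δ hδ0
  obtain ⟨L, p₄, hlarge⟩ := nonres_large δ hδ0 (by linarith)
  obtain ⟨K, hrare⟩ := rare (ε / 2) (by positivity)
  refine ⟨L, fun B => ?_⟩
  obtain ⟨A, C, p₁, hcore⟩ := core k hk0 B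
  set p₀ := max (max p₁ p₂) (max (max p₃ p₄) 2) with hp₀
  -- small bounds
  have hsmall : ∀ p : ℕ, p₀ ≤ p → p.Prime → (∀ l : ℕ, l.Prime → l ∣ p - 1 → ∃ x : ℕ, 1 ≤ x ∧
      (x = p - 1 ∨ (x : ℝ) ≤ (p : ℝ) ^ (ε / 2)) ∧ (x : ZMod p) ^ ((p - 1) / l) ≠ 1) →
      Finds (stp k C A) 4 B C ⌊(p : ℝ) ^ ε⌋₊ p := by
    intro p hp hpp hnon
    have hp1 : p₁ ≤ p := (le_max_left _ _).trans ((le_max_left _ _).trans hp)
    have hp2 : p₂ ≤ p := (le_max_right _ _).trans ((le_max_left _ _).trans hp)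
    have hp5 : 2 ≤ p := (le_max_right _ _).trans ((le_max_right _ _).trans hp)
    have hpr : (1 : ℝ) ≤ p := by exact_mod_cast (by omega : 1 ≤ p)
    have hpr2 : (2 : ℝ) ≤ p := by exact_mod_cast hp5
    have hpp0 : (0 : ℝ) < p := by linarith
    obtain ⟨hs, h5⟩ := hsize p hp2
    refine hcore p hp1 hpp ((p : ℝ) ^ (ε / 2)) (Real.one_le_rpow hpr (by positivity)) ?_ hnon _ ?_
    · calc (p : ℝ) ^ (ε / 2) < (p : ℝ) ^ (1 : ℝ) :=
            Real.rpow_lt_rpow_of_exponent_lt (by linarith) (by linarith)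
        _ = p := Real.rpow_one _
    · have h1 : (p : ℝ) ^ (1 / (k : ℝ)) ≤ (p : ℝ) ^ (ε / 2 + δ) :=
        Real.rpow_le_rpow_of_exponent_le hpr (by linarith)
      have h2 : (p : ℝ) ^ (ε / 2) * p.size ≤ (p : ℝ) ^ (ε / 2 + δ) := by
        rw [Real.rpow_add hpp0]
        gcongr
      have h3 : (1 : ℝ) ≤ (p : ℝ) ^ (ε / 2 + δ) := Real.one_le_rpow hpr (by positivity)
      have h4 : (p : ℝ) ^ (ε / 2 + δ) * 5 ≤ (p : ℝ) ^ ε := by
        calc (p : ℝ) ^ (ε / 2 + δ) * 5 ≤ (p : ℝ) ^ (ε / 2 + δ) * (p : ℝ) ^ δ := by gcongr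
          _ = (p : ℝ) ^ (ε / 2 + δ + δ) := by rw [← Real.rpow_add hpp0]
          _ ≤ (p : ℝ) ^ ε := Real.rpow_le_rpow_of_exponent_le hpr (by rw [hδ]; linarith)
      linarith
  refine ⟨stp k C A, C, K + p₀, p₀, NPC.J4H65PT.round_stp k C A, ?_, ?_, ?_⟩
  · intro p hp hpp
    have hp1 : p₁ ≤ p := (le_max_left _ _).trans ((le_max_left _ _).trans hp)
    have hp2 : p₂ ≤ p := (le_max_right _ _).trans ((le_max_left _ _).trans hp)
    have hp3 : p₃ ≤ p := (le_max_left _ _).trans ((le_max_left _ _).trans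
      ((le_max_right _ _).trans hp))
    have hp5 : 2 ≤ p := (le_max_right _ _).trans ((le_max_right _ _).trans hp)
    have hpr : (1 : ℝ) ≤ p := by exact_mod_cast (by omega : 1 ≤ p)
    have hpp0 : (0 : ℝ) < p := by linarith
    obtain ⟨hs, h5⟩ := hsize p hp2
    set b : ℝ := 1 / (4 * Real.exp (1 / 2)) with hb
    have hb0 : 0 < b := by positivity
    have hb1 : b ≤ 1 / 4 := by
      rw [hb]
      have h1 : (1 : ℝ) ≤ Real.exp (1 / 2) := Real.one_le_exp (by norm_num)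
      rw [div_le_div_iff₀ (by positivity) (by norm_num)]
      linarith
    have hbd1 : (1 : ℝ) ≤ (p : ℝ) ^ (b + δ) := Real.one_le_rpow hpr (by positivity)
    have h2 : 5 * (p : ℝ) ^ (b + δ) ≤ (p : ℝ) ^ (b + 2 * δ) := by
      calc 5 * (p : ℝ) ^ (b + δ) ≤ (p : ℝ) ^ δ * (p : ℝ) ^ (b + δ) := by gcongr
        _ = (p : ℝ) ^ (b + 2 * δ) := by rw [← Real.rpow_add hpp0]; congr 1; ring
    refine hcore p hp1 hpp ((p : ℝ) ^ (b + δ) + 1) (by linarith) ?_ (fun l hl hd => ?_) _ ?_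
    · have h3 : (p : ℝ) ^ (b + 2 * δ) ≤ (p : ℝ) ^ (1 : ℝ) :=
        Real.rpow_le_rpow_of_exponent_le hpr (by linarith)
      rw [Real.rpow_one] at h3
      linarith
    · obtain ⟨x, hx1, hx2, hx3⟩ := hburg p hp3 hpp l hl hd
      exact ⟨x, hx1, Or.inr hx2, hx3⟩
    · have h3 : (p : ℝ) ^ (1 / (k : ℝ)) ≤ (p : ℝ) ^ (b + δ) :=
        Real.rpow_le_rpow_of_exponent_le hpr (by linarith)
      have h4 : ((p : ℝ) ^ (b + δ) + 1) * p.size ≤ (2 * (p : ℝ) ^ (b + δ)) * (p : ℝ) ^ δ := by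
        gcongr
        linarith
      have h6 : (2 * (p : ℝ) ^ (b + δ)) * (p : ℝ) ^ δ = 2 * (p : ℝ) ^ (b + 2 * δ) := by
        rw [mul_assoc, ← Real.rpow_add hpp0]
        congr 2
        ring
      have h7 : 5 * (p : ℝ) ^ (b + 2 * δ) ≤ (p : ℝ) ^ (b + ε) := by
        calc 5 * (p : ℝ) ^ (b + 2 * δ) ≤ (p : ℝ) ^ δ * (p : ℝ) ^ (b + 2 * δ) := by gcongr
          _ = (p : ℝ) ^ (b + 3 * δ) := by rw [← Real.rpow_add hpp0]; congr 1; ring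
          _ ≤ (p : ℝ) ^ (b + ε) := Real.rpow_le_rpow_of_exponent_le hpr (by rw [hδ]; linarith)
      linarith
  · intro p hp hpp hnon
    have hp4 : p₄ ≤ p := (le_max_right _ _).trans ((le_max_left _ _).trans
      ((le_max_right _ _).trans hp))
    have hp5 : 2 ≤ p := (le_max_right _ _).trans ((le_max_right _ _).trans hp)
    have hpr : (1 : ℝ) ≤ p := by exact_mod_cast (by omega : 1 ≤ p)
    refine hsmall p hp hpp fun l hl hd => ?_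
    rcases le_or_gt l L with h1 | h1
    · exact hnon l hl h1 hd
    · obtain ⟨x, hx1, hx2, hx3⟩ := hlarge p hp4 hpp l hl h1 hd
      refine ⟨x, hx1, Or.inr (hx2.trans ?_), hx3⟩
      exact Real.rpow_le_rpow_of_exponent_le hpr (by rw [hδ]; linarith)
  · intro Q
    set E : Finset ℕ := (Finset.Ioc Q (2 * Q)).filter fun p => Exc (ε / 2) p with hE
    have hEc : E.card ≤ K := by
      refine hrare Q E fun q hq => ?_
      rw [hE, mem_filter, mem_Ioc] at hq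
      exact ⟨hq.2, hq.1.1, hq.1.2⟩
    have hsub : {p : ℕ | p.Prime ∧ Q < p ∧ p ≤ 2 * Q ∧
        ¬ Finds (stp k C A) 4 B C ⌊(p : ℝ) ^ ε⌋₊ p} ⊆ (E ∪ Finset.range p₀ : Finset ℕ) := by
      rintro p ⟨hpp, h1, h2, h3⟩
      rw [Finset.mem_coe, mem_union, Finset.mem_range]
      by_contra hcon
      push Not at hcon
      obtain ⟨h4, h5⟩ := hcon
      apply h3
      refine hsmall p h5 hpp fun l hl hd => ?_
      have h6 : ¬ Exc (ε / 2) p := by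
        intro h7
        exact h4 (by rw [hE, mem_filter, mem_Ioc]; exact ⟨⟨h1, h2⟩, h7⟩)
      obtain ⟨x, hx1, hx2, hx3⟩ := nonres_of_not_exc hpp h6 l hl hd
      exact ⟨x, hx1, Or.inr hx2, hx3⟩
    refine (Set.ncard_le_ncard hsub (Finset.finite_toSet _)).trans ?_
    rw [Set.ncard_coe_finset]
    refine (Finset.card_union_le _ _).trans ?_
    rw [Finset.card_range]
    omega

end Pool.Agent.J4H65.PT
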