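import Pool.Agent.J4H65.PT.Imp
import Pool.Agent.Y165.HN.Key

/-!
# Small power nonresidues
-/

set_option autoImplicit false

namespace Pool.Agent.J4H65.PT

open Finset Pool.Agent.Y165.HN

/-- if all small integers are `l`-th powers, then some character is one at them -/
theorem exists_char {p l y : ℕ} (hp : p.Prime) (hl : 2 ≤ l) (hd : l ∣ p - 1)
    (h : ∀ x : ℕ, 1 ≤ x → x ≤ y → (x : ZMod p) ^ ((p - 1) / l) = 1) :
    ∃ χ : DirichletCharacter ℂ p, χ ≠ 1 ∧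
      ∀ q : ℕ, q.Prime → q ≤ y → χ (q : ZMod p) = 1 := by
  haveI : Fact p.Prime := ⟨hp⟩
  have hp1 : 0 < p - 1 := by have := hp.one_lt; omega
  obtain ⟨t, -, -, χ, hχ1, -, hχ⟩ := Pool.Agent.H471R4.BW.hch p ((p - 1) / l)
    (Nat.div_dvd_of_dvd hd) (Nat.div_lt_self hp1 (by omega))
  exact ⟨χ, hχ1, fun q hq hqy => hχ _ (h q hq.one_lt.le hqy)⟩

/-- Burgess -/
theorem nonres_burgess (δ : ℝ) (hδ : 0 < δ) : ∃ q0 : ℕ, ∀ p : ℕ, q0 ≤ p → p.Prime →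
    ∀ l : ℕ, l.Prime → l ∣ p - 1 → ∃ x : ℕ, 1 ≤ x ∧
      (x : ℝ) ≤ (p : ℝ) ^ (1 / (4 * Real.exp (1 / 2)) + δ) + 1 ∧
      (x : ZMod p) ^ ((p - 1) / l) ≠ 1 := by
  obtain ⟨q0, hq⟩ := burg δ hδ
  refine ⟨q0, fun p hp hpp l hl hd => ?_⟩
  by_contra hcon
  push Not at hcon
  set r : ℝ := (p : ℝ) ^ (1 / (4 * Real.exp (1 / 2)) + δ) with hr
  have hr0 : 0 ≤ r := by positivity
  obtain ⟨χ, hχ1, hχ⟩ := exists_char (y := ⌊r⌋₊ + 1) hpp hl.two_le hd fun x hx1 hx2 => by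
    refine hcon x hx1 ?_
    have h1 := Nat.floor_le hr0
    have h2 : (x : ℝ) ≤ (⌊r⌋₊ : ℝ) + 1 := by exact_mod_cast hx2
    linarith
  have h1 := hq p hp hpp χ hχ1 (⌊r⌋₊ + 1) hχ
  have h2 := Nat.lt_floor_add_one r
  push_cast at h1
  linarith

theorem smooth_pow {p g : ℕ} {r : ℝ} (h : ∀ x : ℕ, 1 ≤ x → (x : ℝ) ≤ r → (x : ZMod p) ^ g = 1)
    (s : ℕ) (hs : 1 ≤ s) (hq : ∀ q : ℕ, q.Prime → q ∣ s → (q : ℝ) ≤ r) :
    (s : ZMod p) ^ g = 1 := by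
  induction s using Nat.recOnMul with
  | zero => omega
  | one => simp
  | prime q hqp => exact h q hs (hq q hqp dvd_rfl)
  | mul a b iha ihb =>
    have ha : 1 ≤ a := by
      rcases Nat.eq_zero_or_pos a with h0 | h0
      · rw [h0, zero_mul] at hs; omega
      · exact h0
    have hb : 1 ≤ b := by
      rcases Nat.eq_zero_or_pos b with h0 | h0
      · rw [h0, mul_zero] at hs; omega
      · exact h0
    rw [Nat.cast_mul, mul_pow, iha ha fun q hqp hqa => hq q hqp (hqa.mul_right _),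
      ihb hb fun q hqp hqb => hq q hqp (hqb.mul_left _), mul_one]

/-- large prime factors of `p - 1` -/
theorem nonres_large (δ : ℝ) (hδ : 0 < δ) (hδ1 : δ ≤ 1) : ∃ L q0 : ℕ, ∀ p : ℕ, q0 ≤ p →
    p.Prime → ∀ l : ℕ, l.Prime → L < l → l ∣ p - 1 → ∃ x : ℕ, 1 ≤ x ∧ (x : ℝ) ≤ (p : ℝ) ^ δ ∧
      (x : ZMod p) ^ ((p - 1) / l) ≠ 1 := by
  obtain ⟨c, hc, D0, hS⟩ := Pool.Agent.H471R4.BW.smo δ hδ hδ1
  obtain ⟨L, hL⟩ := exists_nat_ge (1 / c)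
  refine ⟨L, D0, fun p hp hpp l hl hLl hd => ?_⟩
  by_contra hcon
  push Not at hcon
  obtain ⟨S, hS1, hS2⟩ := hS p hp
  have hp1 : 0 < p - 1 := by have := hpp.one_lt; omega
  have hg : 1 ≤ (p - 1) / l := Nat.div_pos (Nat.le_of_dvd hp1 hd) hl.pos
  have hcard : S.card ≤ (p - 1) / l := by
    refine card_roots hpp hg S fun s hs => ?_
    obtain ⟨h1, h2, h3⟩ := hS1 s hs
    exact ⟨h2, smooth_pow hcon s h1 h3⟩
  have h1 : (c * p : ℝ) ≤ ((p - 1) / l : ℕ) := hS2.trans (by exact_mod_cast hcard)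
  have h2 : (((p - 1) / l : ℕ) : ℝ) * l < p := by
    have h3 : (p - 1) / l * l ≤ p - 1 := Nat.div_mul_le_self _ _
    have h4 : (p - 1) / l * l < p := by omega
    exact_mod_cast h4
  have h5 : (L : ℝ) < l := by exact_mod_cast hLl
  have h6 : 1 ≤ c * L := by
    rw [div_le_iff₀ hc] at hL
    linarith
  have hp0 : (0 : ℝ) < p := by exact_mod_cast hpp.pos
  have hl0 : (0 : ℝ) < l := by exact_mod_cast hl.pos
  nlinarith [mul_le_mul_of_nonneg_right h1 hl0.le, mul_pos hc hp0]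

/-- primes which are not exceptional -/
theorem nonres_of_not_exc {θ : ℝ} {p : ℕ} (hp : p.Prime) (h : ¬ Exc θ p) :
    ∀ l : ℕ, l.Prime → l ∣ p - 1 → ∃ x : ℕ, 1 ≤ x ∧ (x : ℝ) ≤ (p : ℝ) ^ θ ∧
      (x : ZMod p) ^ ((p - 1) / l) ≠ 1 := by
  intro l hl hd
  by_contra hcon
  push Not at hcon
  have hr0 : 0 ≤ (p : ℝ) ^ θ := by positivity
  obtain ⟨χ, hχ1, hχ⟩ := exists_char (y := ⌊(p : ℝ) ^ θ⌋₊) hp hl.two_le hd fun x hx1 hx2 => by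
    refine hcon x hx1 ?_
    have h1 := Nat.floor_le hr0
    have h2 : (x : ℝ) ≤ (⌊(p : ℝ) ^ θ⌋₊ : ℝ) := by exact_mod_cast hx2
    linarith
  exact h ⟨hp, χ, hχ1, fun q hq hqp => hχ q hq (Nat.le_floor hqp)⟩

/-- boundedly many exceptional primes in dyadic intervals -/
theorem rare (θ : ℝ) (hθ : 0 < θ) : ∃ C : ℕ, ∀ (Q : ℕ) (E : Finset ℕ),
    (∀ q ∈ E, Exc θ q ∧ Q < q ∧ q ≤ 2 * Q) → E.card ≤ C :=
  Pool.Agent.Y813.HN.t_RARE Pool.Agent.H471R4.BW.smo Pool.Agent.Y369.HN.t_PER θ hθ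

end Pool.Agent.J4H65.PT
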