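import Pool.Agent.J4H65.PT.Alg

/-!
# The rounds are computable in polynomial time
-/

set_option autoImplicit false

namespace Pool.Agent.NPC.J4H65PT

open Pool.Agent.J4H65.PT Pool.Agent.NPC Pool.Agent.H595R2.PR Pool.Agent.NPC.H595POL Pool.Agent.NPC.R562POL
open Pool.Agent.R562.PR (candsS withSmall poly_withSmall)

theorem poly_pow {α : Type} [TEnc α] {f : α → ℕ} (hf : Poly f) (k : ℕ) :
    Poly (fun a => f a ^ k) := by
  induction k with
  | zero => exact (Poly.const 1).congr fun a => by simp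
  | succ k ih => exact (Poly.mul ih hf).congr fun a => by rw [pow_succ]

theorem poly_stp (k C A : ℕ) : Poly (stp k C A) := by
  have hg : ∀ i : ℕ, Poly (fun c : List ℕ => c.getD i 0) := fun i =>
    Poly.getD Poly.id (Poly.const i) (Poly.const 0)
  have ht : Poly (fun c : List ℕ => c.tail.tail.tail.tail) :=
    Poly.tail (Poly.tail (Poly.tail (Poly.tail Poly.id)))
  have hcd : Poly (fun c : List ℕ => cd (c.getD 0 0) (c.getD 3 0)) :=
    Poly.ite (p := fun c : List ℕ => c.getD 3 0 ≤ 1) (Poly.decide_le (hg 3) (Poly.const 1))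
      (Poly.sub (hg 0) (Poly.const 1)) (hg 3)
  have hf : Poly (fun _ : List ℕ => false) := Poly.const false
  have htr : Poly (fun _ : List ℕ => true) := Poly.const true
  unfold stp
  refine Poly.ite (p := fun c : List ℕ => c.length ≤ 1)
    (Poly.decide_le (Poly.length Poly.id) (Poly.const 1)) ?_ ?_
  · exact Poly.pair hf (Poly.cons (hg 0) (Poly.cons (Poly.sub (hg 0) (Poly.const 1))
      (Poly.cons (Poly.const 2) (Poly.cons (Poly.const 1) (Poly.const [])))))
  refine Poly.ite (p := fun c : List ℕ => c.getD 0 0 ≤ c.getD 2 0 ^ k)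
    (Poly.decide_le (hg 0) (poly_pow (hg 2) k)) ?_ ?_
  · refine Poly.pair htr (poly_candsS C (hg 0) (poly_withSmall ((upoly_sizepow A).comp (hg 0)) ht))
  refine Poly.ite (p := fun c : List ℕ => c.getD 1 0 % c.getD 2 0 = 0)
    (Poly.decide_eq (Poly.mod (hg 1) (hg 2)) (Poly.const 0)) ?_ ?_
  · refine Poly.ite (p := fun c : List ℕ => pw (c.getD 0 0) (cd (c.getD 0 0) (c.getD 3 0))
        ((c.getD 0 0 - 1) / c.getD 2 0) = md (c.getD 0 0) 1) ?_ ?_ ?_
    · exact Poly.decide_eq (poly_pw (hg 0) hcd (Poly.div (Poly.sub (hg 0) (Poly.const 1)) (hg 2)))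
        (poly_md (hg 0) (Poly.const 1))
    · exact Poly.pair hf (Poly.cons (hg 0) (Poly.cons (hg 1) (Poly.cons (hg 2)
        (Poly.cons (Poly.succ (hg 3)) ht))))
    · exact Poly.pair hf (Poly.cons (hg 0) (Poly.cons (Poly.div (hg 1) (hg 2)) (Poly.cons (hg 2)
        (Poly.cons (Poly.const 1) (Poly.cons hcd ht)))))
  · exact Poly.pair hf (Poly.cons (hg 0) (Poly.cons (hg 1) (Poly.cons (Poly.succ (hg 2))
      (Poly.cons (Poly.const 1) ht))))

theorem round_stp (k C A : ℕ) : PolyTimeRound (stp k C A) := by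
  have h4 : NPC.Poly (fun x : List Bool =>
      (unbits (List ℕ) x).elim (false, ([] : List ℕ)) (fun c => stp k C A c)) := by
    have h5 := NPC.Poly.optCases (o := fun x : List Bool => unbits (List ℕ) x)
      (g := fun _ => (false, ([] : List ℕ))) (h := fun _ c => stp k C A c)
      poly_unbits (NPC.Poly.const _) ((poly_stp k C A).comp (NPC.Poly.snd NPC.Poly.id))
    refine h5.congr fun x => ?_
    cases unbits (List ℕ) x <;> rfl
  refine ⟨_, polyTime_bits h4, fun c => ?_⟩
  simp only [unbits_bits, Option.elim]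

end Pool.Agent.NPC.J4H65PT
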